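import Mathlib

/-!
# Szpiro's inequality for all twists of the curves of almost all invariants: definitions and the
# statements of the parts (helper728)
-/

set_option autoImplicit false

namespace Pool.Agent.Y728.SZ

open Finset

/-- the discriminant `D = 4a³ - 27b²` of the model `y² = x³ - a x - b` -/
def Disc (a b : ℤ) : ℤ := 4 * a ^ 3 - 27 * b ^ 2

/-- the model `y² = x³ - a x - b` is an elliptic curve (`D ≠ 0`) and it is minimal: `|D|` is
smallest among the integral models `y² = x³ - a' x - b'`, `a' = u⁴ a`, `b' = u⁶ b`, `u ∈ ℚ^×` -/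
def IsMinimal (a b : ℤ) : Prop :=
  Disc a b ≠ 0 ∧ ∀ (u : ℚ) (a' b' : ℤ), u ≠ 0 → (a' : ℚ) = u ^ 4 * a → (b' : ℚ) = u ^ 6 * b →
    |Disc a b| ≤ |Disc a' b'|

/-- the prime-to-6 part of the conductor of a minimal model: the product over the primes `p ≥ 5`
dividing `D` of `p` (node: `p ∤ a`) or `p²` (cusp: `p ∣ a`) -/
def Cond6 (a b : ℤ) : ℕ :=
  ∏ p ∈ (Disc a b).natAbs.primeFactors.filter (fun p => 5 ≤ p), if (p : ℤ) ∣ a then p ^ 2 else p

/-- the invariant of `y² = x³ - a x - b` -/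
def jInv (a b : ℤ) : ℚ := 6912 * a ^ 3 / Disc a b

/-- the product of the primes dividing `n` -/
def radical (n : ℕ) : ℕ := ∏ p ∈ n.primeFactors, p

/-- the numerator of `j` -/
def n1 (j : ℚ) : ℕ := j.num.natAbs

/-- the numerator of `j - 1728` -/
def n3 (j : ℚ) : ℕ := (j.num - 1728 * j.den).natAbs

/-- the product of the primes at which `j` reduces to `0`, `1728` or `∞` -/
def radJ (j : ℚ) : ℕ := radical (n1 j * n3 j * j.den)

/-- the invariants with `radJ j ≤ X`, of whatever height -/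
def Inv (X : ℝ) : Set ℚ := {j | j ≠ 0 ∧ j ≠ 1728 ∧ (radJ j : ℝ) ≤ X}

/-- the height of `j` -/
def Ht (j : ℚ) : ℕ := max (n1 j) j.den

/-- SZ1: the number of invariants, and of those for which `radJ j` is not almost the cube of the
height -/
def StmtCount : Prop :=
  (∃ c C X₀ : ℝ, 0 < c ∧ 0 < C ∧ (∀ X : ℝ, 1 ≤ X → (Inv X).Finite ∧
      ((Inv X).ncard : ℝ) ≤ C * X ^ ((2 : ℝ) / 3)) ∧
    ∀ X : ℝ, X₀ ≤ X → c * X ^ ((2 : ℝ) / 3) ≤ ((Inv X).ncard : ℝ)) ∧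
  ∀ κ : ℝ, 0 < κ → ∃ ν C : ℝ, 0 < ν ∧ 0 < C ∧ ∀ X : ℝ, 1 ≤ X →
    ({j : ℚ | j ∈ Inv X ∧ (radJ j : ℝ) < (Ht j : ℝ) ^ (3 - κ)}.ncard : ℝ) ≤ C * X ^ (2 / 3 - ν)

/-- SZ2a: the upper bound for the discriminant of a minimal model -/
def StmtUp : Prop :=
  ∀ a b : ℤ, IsMinimal a b → jInv a b ≠ 0 → jInv a b ≠ 1728 →
    (Disc a b).natAbs * radical (jInv a b).den ^ 2 * radical (n1 (jInv a b)) ^ 2 ∣
      2 ^ 21 * 3 ^ 20 * Cond6 a b ^ 4 * radical (n3 (jInv a b)) * n1 (jInv a b) ^ 2 *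
        (jInv a b).den

/-- SZ2b: the lower bound for the discriminant of a minimal model -/
def StmtLow : Prop :=
  ∀ a b : ℤ, IsMinimal a b → jInv a b ≠ 0 → jInv a b ≠ 1728 →
    Cond6 a b ^ 6 * radical (n3 (jInv a b)) ^ 6 ∣
      6 ^ 6 * (Disc a b).natAbs ^ 5 * radical (n1 (jInv a b)) ^ 2 * radical (jInv a b).den *
        n3 (jInv a b) ^ 3

/-- SZ3a: there is a twist with large discriminant -/
def StmtMax : Prop :=
  ∀ j : ℚ, j ≠ 0 → j ≠ 1728 → ∃ a b : ℤ, IsMinimal a b ∧ jInv a b = j ∧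
    Cond6 a b ^ 4 * radical (n1 j) ^ 2 * radical (n3 j) ^ 4 ∣
      6 ^ 10 * (Disc a b).natAbs * n1 j ^ 2 * radical j.den * n3 j ^ 3

/-- SZ3b: there is a twist with small discriminant -/
def StmtMin : Prop :=
  ∀ j : ℚ, j ≠ 0 → j ≠ 1728 → ∃ a b : ℤ, IsMinimal a b ∧ jInv a b = j ∧
    (Disc a b).natAbs ^ 5 * radical (n1 j) ^ 12 * radical j.den ^ 6 ∣
      6 ^ 105 * Cond6 a b ^ 6 * n1 j ^ 10 * n3 j ^ 3 * j.den ^ 5

/-- SZ2c: the conductor is divisible by the prime-to-6 part of the radical of the denominator -/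
def StmtDen : Prop :=
  ∀ a b : ℤ, IsMinimal a b → jInv a b ≠ 0 → jInv a b ≠ 1728 →
    radical (jInv a b).den ∣ 6 * Cond6 a b

end Pool.Agent.Y728.SZ
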